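import Pool.Agent.U922.OL.Pts

/-!
# One line: comparison of the continuous and the discrete moments (helper922)
-/

set_option autoImplicit false

open Filter Topology Set MeasureTheory

namespace Pool.Agent.U922.OL

open Pool.Agent.W188.QS Pool.Agent.W188.GP Pool.Agent.W188.MZ

lemma Line_eq (u : ℂ) : Line u = Pts u 1 := by
  ext t
  constructor
  · rintro ⟨h, r, hr, e⟩
    refine ⟨h, 0, r, hr, ?_⟩
    rw [e]
    simp
  · rintro ⟨h, j, r, hr, e⟩
    refine ⟨h, r * (-1) ^ j, mul_ne_zero hr (pow_ne_zero _ (by norm_num)), ?_⟩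
    have h1 : Complex.exp (Real.pi * Complex.I * j / (1 : ℕ)) = (-1) ^ j := by
      rw [← Complex.exp_pi_mul_I, ← Complex.exp_nat_mul]
      congr 1
      push_cast
      ring
    rw [e, h1]
    push_cast
    ring

lemma L_eq_D (p : ℝ) (u : ℂ) (S T : ℝ) : L p u S T = D p u 1 S T := by
  unfold L D
  rw [Line_eq]

/-- one line in terms of the nodes -/
lemma L_eq {u : ℂ} (hu : u ≠ 0) : ∃ γ : ℝ, ∀ (p : ℝ) (a b : ℝ), 0 < p → 100 ≤ a → a ≤ b →
    L p u a b = DD p γ a b ∧ (Line u ∩ Ioc a b).Finite := by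
  obtain ⟨γ, hγ⟩ := D_eq hu
  refine ⟨γ, fun p a b hp ha hab => ?_⟩
  obtain ⟨h1, h2⟩ := hγ p 1 a b hp le_rfl ha hab
  rw [L_eq_D, h1, Line_eq]
  refine ⟨?_, h2⟩
  rw [Finset.sum_range_one]
  simp

lemma L_nonneg (p : ℝ) (u : ℂ) (a b : ℝ) : 0 ≤ L p u a b :=
  finsum_nonneg fun t => finsum_nonneg fun _ => Real.rpow_nonneg (norm_nonneg _) p

lemma L_fin {u : ℂ} (hu : u ≠ 0) {b : ℝ} : (Line u ∩ Ioc 100 b).Finite := by
  obtain ⟨γ, hγ⟩ := L_eq hu
  rcases le_or_gt 100 b with h | h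
  · exact (hγ 1 100 b one_pos le_rfl h).2
  · rw [Ioc_eq_empty (by linarith)]
    simp

lemma L_fin' {u : ℂ} (hu : u ≠ 0) (a b : ℝ) : (Line u ∩ Ioc a b).Finite := by
  refine (L_fin hu (b := b)).subset ?_
  rintro t ⟨h1, h2, h3⟩
  exact ⟨h1, h1.1, h3⟩

lemma L_mono {u : ℂ} (hu : u ≠ 0) (p : ℝ) {a b a' b' : ℝ} (ha : a' ≤ a) (hb : b ≤ b') :
    L p u a b ≤ L p u a' b' := by
  unfold L
  rw [finsum_mem_eq_finite_toFinset_sum _ (L_fin' hu a b),
    finsum_mem_eq_finite_toFinset_sum _ (L_fin' hu a' b')]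
  apply Finset.sum_le_sum_of_subset_of_nonneg
  · rw [Set.Finite.toFinset_subset_toFinset]
    exact inter_subset_inter_right _ (Ioc_subset_Ioc ha hb)
  · intro t _ _
    exact Real.rpow_nonneg (norm_nonneg _) p

lemma L_add {u : ℂ} (hu : u ≠ 0) (p : ℝ) {a b c : ℝ} (hab : a ≤ b) (hbc : b ≤ c) :
    L p u a c = L p u a b + L p u b c := by
  unfold L
  rw [← finsum_mem_union]
  · rw [← inter_union_distrib_left, Ioc_union_Ioc_eq_Ioc hab hbc]
  · apply disjoint_left.2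
    rintro t ⟨_, h2⟩ ⟨_, h4⟩
    exact absurd h2.2 (not_le.2 h4.1)
  · exact L_fin' hu a b
  · exact L_fin' hu b c

/-- dyadic summation -/
lemma dyad {F : ℝ → ℝ} {T1 K a : ℝ} (hT1 : 1 ≤ T1) (hK : 0 ≤ K) (ha : 0 ≤ a)
    (hmono : ∀ x y, T1 ≤ x → x ≤ y → F x ≤ F y)
    (h : ∀ T, 8 * T1 ≤ T → F T ≤ F (T / 8) + K * (T * Real.log T ^ a)) :
    ∀ T, T1 ≤ T → F T ≤ F (8 * T1) + 8 / 7 * (K * (T * Real.log T ^ a)) := by
  have base : ∀ T, T1 ≤ T → T ≤ 8 * T1 → F T ≤ F (8 * T1) + 8 / 7 * (K * (T * Real.log T ^ a)) := by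
    intro T h1 h2
    have h3 : F T ≤ F (8 * T1) := hmono _ _ h1 h2
    have h4 : 0 ≤ Real.log T := Real.log_nonneg (by linarith)
    have h5 : 0 ≤ 8 / 7 * (K * (T * Real.log T ^ a)) := by
      have : 0 ≤ T := by linarith
      positivity
    linarith
  have key : ∀ n : ℕ, ∀ T, T1 ≤ T → T ≤ 8 ^ n * T1 →
      F T ≤ F (8 * T1) + 8 / 7 * (K * (T * Real.log T ^ a)) := by
    intro n
    induction n with
    | zero =>
      intro T h1 h2
      exact base T h1 (by simp at h2; linarith)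
    | succ n ih =>
      intro T h1 h2
      rcases le_or_gt T (8 * T1) with h3 | h3
      · exact base T h1 h3
      · have h4 := ih (T / 8) (by linarith) (by rw [pow_succ] at h2; linarith)
        have h5 := h T h3.le
        have h7 : Real.log (T / 8) ^ a ≤ Real.log T ^ a := by
          apply Real.rpow_le_rpow (Real.log_nonneg (by linarith)) _ ha
          exact Real.log_le_log (by linarith) (by linarith)
        have h8 : T / 8 * Real.log (T / 8) ^ a ≤ T / 8 * Real.log T ^ a :=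
          mul_le_mul_of_nonneg_left h7 (by linarith)
        have h9 : K * (T / 8 * Real.log (T / 8) ^ a) ≤ K * (T / 8 * Real.log T ^ a) :=
          mul_le_mul_of_nonneg_left h8 hK
        have e : K * (T / 8 * Real.log T ^ a) = 1 / 8 * (K * (T * Real.log T ^ a)) := by ring
        linarith
  intro T hT
  obtain ⟨n, hn⟩ := pow_unbounded_of_one_lt T (by norm_num : (1 : ℝ) < 8)
  refine key n T hT (hn.le.trans ?_)
  exact le_mul_of_one_le_right (by positivity) hT1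

/-- **One line suffices for the order of magnitude**, all real orders `p > 1`. -/
theorem one_cmp {p : ℝ} (hp : 1 < p) : ∃ C T₀ : ℝ, 0 < C ∧ 200 ≤ T₀ ∧ ∀ (u : ℂ) (T : ℝ), u ≠ 0 → T₀ ≤ T →
    Real.log T * (∫ t in T..(8 * T), ‖z t‖ ^ p) ≤ C * L p u (T / 2) (16 * T) ∧
    L p u T (8 * T) ≤ C * (Real.log T * ∫ t in (T / 2)..(16 * T), ‖z t‖ ^ p) := by
  obtain ⟨C, T₀, hC, h⟩ := a_fin p hp
  refine ⟨C, max T₀ 200, hC, le_max_right _ _, fun u T hu hT => ?_⟩
  obtain ⟨γ, hγ⟩ := L_eq hu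
  have h1 : T₀ ≤ T := (le_max_left _ _).trans hT
  have h2 : 200 ≤ T := (le_max_right _ _).trans hT
  rw [(hγ p (T / 2) (16 * T) (by linarith) (by linarith) (by linarith)).1,
    (hγ p T (8 * T) (by linarith) (by linarith) (by linarith)).1]
  exact h T γ h1

lemma zp_cont {p : ℝ} (hp : 0 < p) : Continuous fun t : ℝ => ‖z t‖ ^ p := by
  have h1 : Continuous ZZ := by
    have := Zk_cont 1
    have h2 : ZZ = fun t => √(Zk 1 t) := by
      funext t
      unfold Zk ZZ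
      rw [mul_one, Real.sqrt_sq (norm_nonneg _)]
    rw [h2]
    exact this.sqrt
  exact h1.rpow_const (fun _ => Or.inr hp.le)

lemma zp_nonneg (p t : ℝ) : 0 ≤ ‖z t‖ ^ p := Real.rpow_nonneg (norm_nonneg _) p

/-- bounded heights: a bound which is uniform in the direction -/
lemma L_start {p : ℝ} (hp : 0 < p) (B : ℝ) : ∃ K : ℝ, 0 ≤ K ∧ ∀ u : ℂ, u ≠ 0 → L p u 100 B ≤ K := by
  rcases le_or_gt 100 B with hB | hB
  · obtain ⟨M, hM⟩ := (isCompact_Icc (a := (100 : ℝ)) (b := B)).bddAbove_image (zp_cont hp).continuousOn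
    have hM' : ∀ t, 100 ≤ t → t ≤ B → ‖z t‖ ^ p ≤ M := fun t h1 h2 => hM ⟨t, ⟨h1, h2⟩, rfl⟩
    have hM0 : 0 ≤ M := (zp_nonneg p 100).trans (hM' 100 le_rfl hB)
    obtain ⟨-, -, -, -, -, -, -, -, -, h100, -, -, hnd⟩ := a_tau
    refine ⟨(|vv B| + 2) * M, by positivity, fun u hu => ?_⟩
    obtain ⟨γ, hγ⟩ := L_eq hu
    rw [(hγ p 100 B hp le_rfl hB).1]
    unfold DD
    have h1 : ∑ n ∈ nd γ 100 B, ZZ (tau (n + γ)) ^ p ≤ ∑ _n ∈ nd γ 100 B, M := by
      apply Finset.sum_le_sum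
      intro n hn
      have := (hnd γ 100 B n).1 hn
      exact hM' _ this.1.le this.2
    refine h1.trans ?_
    rw [Finset.sum_const, nsmul_eq_mul]
    apply mul_le_mul_of_nonneg_right _ hM0
    unfold nd
    rw [Int.card_Ioc, h100]
    have h2 : (((⌊vv B - γ⌋ - ⌊0 - γ⌋).toNat : ℕ) : ℝ) = ((max (⌊vv B - γ⌋ - ⌊0 - γ⌋) 0 : ℤ) : ℝ) := by
      exact_mod_cast Int.toNat_eq_max _
    rw [h2]
    have h3 : ((⌊vv B - γ⌋ : ℤ) : ℝ) ≤ vv B - γ := Int.floor_le _
    have h4 : 0 - γ < (⌊0 - γ⌋ : ℤ) + 1 := Int.lt_floor_add_one _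
    have h5 := le_abs_self (vv B)
    have h6 := abs_nonneg (vv B)
    push_cast
    apply max_le <;> linarith
  · refine ⟨0, le_rfl, fun u _ => ?_⟩
    unfold L
    rw [Ioc_eq_empty (by linarith), inter_empty]
    simp

end Pool.Agent.U922.OL
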