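import Pool.Agent.U922.OL.Pts
import Pool.Agent.W188.QS.All5
import Pool.Agent.W188.QS.Asm3
import Pool.Agent.TH806.N4.Abs

/-!
# Few lines: the integer moments of zeta and `N ≥ k - 1` lines (helper922)
-/

set_option autoImplicit false

open Filter Topology Set MeasureTheory

namespace Pool.Agent.U922.OL

open Pool.Agent.W188.QS

lemma E_eq {u : ℂ} {N k : ℕ} (hu : u ≠ 0) (hN : 1 ≤ N) (hk : 1 ≤ k) (a b : ℝ) :
    E k N u a b = SS (cc u N) N (Zk k) a b :=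
  sum_eq hu hN (Ioc a b) (fun t => ‖z t‖ ^ (2 * k)) (fun t ht => by
    rw [ht, norm_zero, zero_pow (by omega)])

theorem few_equiv {k N : ℕ} {u : ℂ} (a : ℝ) (hk : 1 ≤ k) (hN : 1 ≤ N) (hkN : k ≤ N + 1) (hu : u ≠ 0) :
    Tendsto (fun T : ℝ => M k T / Real.log T ^ (k ^ 2)) atTop (𝓝 a) ↔
      Tendsto (fun T : ℝ => 2 * Real.pi / N * E k N u 0 T / (T * Real.log T ^ (k ^ 2 + 1))) atTop (𝓝 a) := by
  have h := equiv a_taub a_wt a_line a_meas a_quad a_qs (cc_norm hu N) hk hN hkN a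
  have e1 : (fun T : ℝ => M k T / Real.log T ^ (k ^ 2)) =
      fun T : ℝ => (∫ t in (0 : ℝ)..T, Zk k t) / (T * Real.log T ^ ((k : ℝ) ^ 2)) := by
    funext T
    have : (k : ℝ) ^ 2 = ((k ^ 2 : ℕ) : ℝ) := by push_cast; ring
    rw [this, Real.rpow_natCast, div_mul_eq_div_div, div_eq_inv_mul (∫ t in (0 : ℝ)..T, Zk k t) T]
    rfl
  have e2 : (fun T : ℝ => 2 * Real.pi / N * E k N u 0 T / (T * Real.log T ^ (k ^ 2 + 1))) =
      fun T : ℝ => 2 * Real.pi / N * SS (cc u N) N (Zk k) 0 T / (T * Real.log T ^ ((k : ℝ) ^ 2 + 1)) := by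
    funext T
    have : (k : ℝ) ^ 2 + 1 = ((k ^ 2 + 1 : ℕ) : ℝ) := by push_cast; ring
    rw [this, Real.rpow_natCast, E_eq hu hN hk]
  rw [e1, e2]
  exact h

theorem few_upper {k N : ℕ} {u : ℂ} {ε : ℝ} (hk : 1 ≤ k) (hN : 1 ≤ N) (hkN : k ≤ N + 1) (hu : u ≠ 0)
    (h0 : 0 < ε) (h1 : ε < 1) : ∀ᶠ T : ℝ in atTop,
      E k N u T (2 * T) ≤ (N / (2 * Real.pi) + ε) *
        (Real.log T * ∫ t in ((1 - ε) * T)..((2 + ε) * T), ‖z t‖ ^ (2 * k)) := by
  have h := upper a_maj a_line a_meas a_quad a_qs (cc_norm hu N) hk hN hkN h0 h1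
  filter_upwards [h] with T hT
  rw [E_eq hu hN hk]
  exact hT

theorem few_lower {k N : ℕ} {u : ℂ} {ε : ℝ} (hk : 1 ≤ k) (hN : 1 ≤ N) (hkN : k ≤ N + 1) (hu : u ≠ 0)
    (h0 : 0 < ε) (h1 : ε < 1) : ∀ᶠ T : ℝ in atTop,
      (N / (2 * Real.pi) - ε) * (Real.log T * ∫ t in T..(2 * T), ‖z t‖ ^ (2 * k)) ≤
        E k N u ((1 - ε) * T) ((2 + ε) * T) := by
  have h := lower a_maj a_maj2 a_line a_meas a_quad a_qs (cc_norm hu N) hk hN hkN h0 h1
  filter_upwards [h] with T hT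
  rw [E_eq hu hN hk]
  exact hT

lemma aM_eq {T : ℝ} (hT : 0 < T) : Pool.Agent.TH806.N4.aM 4 0 T = M 2 T := by
  have h := intervalIntegral.integral_comp_mul_right (fun t : ℝ => ‖z t‖ ^ (2 * 2)) (a := 0) (b := 1) hT.ne'
  rw [zero_mul, one_mul, smul_eq_mul] at h
  unfold M
  rw [← h]
  unfold Pool.Agent.TH806.N4.aM
  apply intervalIntegral.integral_congr
  intro v _
  have e : (4 : ℝ) = ((2 * 2 : ℕ) : ℝ) := by norm_num
  simp only []
  rw [e, Real.rpow_natCast]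
  congr 2
  unfold z
  congr 1
  push_cast
  ring

/-- Ingham's theorem in the form of the problem, from the theorem `TH806.N4.a_SHT` of the library -/
theorem ingham : Tendsto (fun T : ℝ => M 2 T / Real.log T ^ (2 ^ 2)) atTop (𝓝 (1 / (2 * Real.pi ^ 2))) := by
  rw [Metric.tendsto_atTop']
  intro ε hε
  obtain ⟨δ, hδ, h⟩ := Pool.Agent.TH806.N4.a_SHT.2 (ε / 2) (half_pos hε)
  obtain ⟨T₀, hT₀⟩ := eventually_atTop.1 (h 0)
  refine ⟨max T₀ 3, fun T hT => ?_⟩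
  have hT1 : T₀ ≤ T := (le_max_left _ _).trans hT.le
  have hT3 : 3 < T := lt_of_le_of_lt (le_max_right _ _) hT
  obtain ⟨h1, h2⟩ := hT₀ T hT1
  have h3 := h1 4 (by linarith) le_rfl
  have h4 := h2 4 le_rfl (by linarith)
  rw [aM_eq (by linarith)] at h3 h4
  have hl : 0 < Real.log T := Real.log_pos (by linarith)
  have e : Real.log T ^ ((4 : ℝ) ^ 2 / 4) = Real.log T ^ (2 ^ 2) := by
    have : (4 : ℝ) ^ 2 / 4 = ((2 ^ 2 : ℕ) : ℝ) := by norm_num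
    rw [this, Real.rpow_natCast]
  rw [e] at h3 h4
  have hp : 0 < Real.log T ^ (2 ^ 2) := by positivity
  rw [Real.dist_eq, abs_lt]
  have h5 : M 2 T / Real.log T ^ (2 ^ 2) ≤ 1 / (2 * Real.pi ^ 2) + ε / 2 := by
    rw [div_le_iff₀ hp]; exact h3
  have h6 : 1 / (2 * Real.pi ^ 2) - ε / 2 ≤ M 2 T / Real.log T ^ (2 ^ 2) := by
    rw [le_div_iff₀ hp]; exact h4
  constructor <;> linarith

/-- the fourth moment over one line -/
theorem fourth {u : ℂ} (hu : u ≠ 0) :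
    Tendsto (fun T : ℝ => E 2 1 u 0 T / (T * Real.log T ^ 5)) atTop (𝓝 (1 / (4 * Real.pi ^ 3))) := by
  have h := (few_equiv (1 / (2 * Real.pi ^ 2)) (k := 2) (N := 1) (by norm_num) le_rfl (by norm_num) hu).1 ingham
  have h2 := h.const_mul (1 / (2 * Real.pi))
  have e : 1 / (2 * Real.pi) * (1 / (2 * Real.pi ^ 2)) = 1 / (4 * Real.pi ^ 3) := by
    field_simp; ring
  rw [e] at h2
  refine h2.congr fun T => ?_
  have hpi := Real.pi_pos
  rw [Nat.cast_one, div_one]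
  field_simp
  norm_num

end Pool.Agent.U922.OL
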