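import Pool.Agent.U922.OL.Two
import Pool.Agent.U196.UM.Exact

/-!
# The exact order of the moments of order `p ≤ 2`, from the theorem `U196.UM.exact` (helper922)
-/

set_option autoImplicit false

open Filter Topology Set MeasureTheory

namespace Pool.Agent.U922.OL

open Pool.Agent.U196.UM Pool.Agent.Q97.UM

lemma zeta_near_one : ∀ᶠ T : ℝ in atTop,
    1 / 2 * Real.log T ≤ ‖riemannZeta (1 + 1 / Real.log T + (0 - 0) * Complex.I)‖ ∧
    ‖riemannZeta (1 + 1 / Real.log T + (0 - 0) * Complex.I)‖ ≤ 2 * Real.log T := by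
  have h1 : Tendsto (fun T : ℝ => ((1 + 1 / Real.log T : ℝ) : ℂ)) atTop (𝓝[≠] 1) := by
    rw [tendsto_nhdsWithin_iff]
    constructor
    · have : Tendsto (fun T : ℝ => (1 + 1 / Real.log T : ℝ)) atTop (𝓝 (1 + 0)) := by
        apply tendsto_const_nhds.add
        have h := Real.tendsto_log_atTop.inv_tendsto_atTop
        refine h.congr fun x => ?_
        rw [Pi.inv_apply, one_div]
      rw [add_zero] at this
      have h2 := (Complex.continuous_ofReal.tendsto 1).comp this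
      rw [Complex.ofReal_one] at h2
      exact h2
    · filter_upwards [eventually_gt_atTop 1] with T hT
      have hl := Real.log_pos hT
      simp only [mem_compl_iff, mem_singleton_iff]
      intro h
      have h2 : (1 + 1 / Real.log T : ℝ) = 1 := by exact_mod_cast h
      have h3 : 0 < 1 / Real.log T := by positivity
      linarith
  have h2 := (riemannZeta_residue_one.comp h1).norm
  rw [norm_one] at h2
  have h3 : ∀ᶠ T : ℝ in atTop, ‖((fun s : ℂ => (s - 1) * riemannZeta s) ∘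
      fun T : ℝ => ((1 + 1 / Real.log T : ℝ) : ℂ)) T‖ ∈ Icc (1 / 2 : ℝ) 2 :=
    h2 (Icc_mem_nhds (by norm_num) (by norm_num))
  filter_upwards [h3, eventually_gt_atTop 1] with T hT hT1
  have hl := Real.log_pos hT1
  simp only [Function.comp, mem_Icc] at hT
  rw [norm_mul] at hT
  have e1 : ‖(((1 + 1 / Real.log T : ℝ) : ℂ)) - 1‖ = 1 / Real.log T := by
    have : (((1 + 1 / Real.log T : ℝ) : ℂ)) - 1 = ((1 / Real.log T : ℝ) : ℂ) := by push_cast; ring
    rw [this, Complex.norm_real, Real.norm_of_nonneg (by positivity)]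
  have e2 : (((1 + 1 / Real.log T : ℝ) : ℂ)) = 1 + 1 / (Real.log T : ℂ) + (0 - 0) * Complex.I := by
    push_cast; ring
  rw [e1, e2] at hT
  obtain ⟨h4, h5⟩ := hT
  constructor
  · rw [div_mul_eq_mul_div, one_mul, le_div_iff₀ hl] at h4
    linarith
  · rw [div_mul_eq_mul_div, one_mul, div_le_iff₀ hl] at h5
    exact h5

theorem small_exact {p : ℝ} (hp : 0 < p) (hp2 : p ≤ 2) : ∃ c K : ℝ, 0 < c ∧ 0 < K ∧ ∀ᶠ T : ℝ in atTop,
    c * (T * Real.log T ^ (p ^ 2 / 4)) ≤ ∫ t in T..(2 * T), ‖z t‖ ^ p ∧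
    ∫ t in T..(2 * T), ‖z t‖ ^ p ≤ K * (T * Real.log T ^ (p ^ 2 / 4)) := by
  obtain ⟨θ, c, C, hθ, hc, hC, hev⟩ := exact 1
  refine ⟨c * (c * (1 / 2) ^ (p ^ 2 / 4)), C * (C * 2 ^ (p ^ 2 / 4)), by positivity, by positivity, ?_⟩
  filter_upwards [hev, zeta_near_one, eventually_gt_atTop 1] with T h1 h2 hT1
  have hT0 : 0 < T := by linarith
  have hl := Real.log_pos hT1
  obtain ⟨M, e, -, h3, h4, h5⟩ := h1 (fun _ => p / 2) (fun _ => 0) (fun _ => by positivity)
    (by simp; linarith) (fun _ => by simp; linarith)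
  obtain ⟨h6, h7⟩ := h5 1 (by simpa using Real.one_le_rpow hT1.le hθ.le) (fun _ => 1)
  have hpred : pred T (fun _ : Fin 1 => p / 2) (fun _ => 0) =
      ‖riemannZeta (1 + 1 / Real.log T + (0 - 0) * Complex.I)‖ ^ (p ^ 2 / 4) := by
    unfold pred
    rw [Fin.prod_univ_one, Fin.prod_univ_one]
    have : p / 2 * (p / 2) = p ^ 2 / 4 := by ring
    simp only [Complex.ofReal_zero]
    rw [this]
  have hdp : ∀ t : ℝ, dp 1 (fun _ => 1) t = 1 := by
    intro t
    unfold dp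
    simp
  have hint : ∀ t : ℝ, (∏ j : Fin 1, ‖zt (t + (fun _ : Fin 1 => (0 : ℝ)) j)‖ ^ (2 * (fun _ : Fin 1 => p / 2) j)) *
      ‖dp 1 (fun _ => 1) t‖ ^ 2 = ‖z t‖ ^ p := by
    intro t
    rw [hdp, Fin.prod_univ_one, norm_one, one_pow, mul_one, add_zero]
    have : 2 * (p / 2) = p := by ring
    simp only [this]
    rfl
  have hint2 : ∀ t : ℝ, ‖dp M e t * dp 1 (fun _ => 1) t‖ ^ 2 = ‖dp M e t‖ ^ 2 := by
    intro t
    rw [hdp, mul_one]
  simp only [hint, hint2] at h6 h7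
  rw [hpred] at h3 h4
  have hq : 0 ≤ p ^ 2 / 4 := by positivity
  have hz1 : (1 / 2) ^ (p ^ 2 / 4) * Real.log T ^ (p ^ 2 / 4) ≤
      ‖riemannZeta (1 + 1 / Real.log T + (0 - 0) * Complex.I)‖ ^ (p ^ 2 / 4) := by
    rw [← Real.mul_rpow (by norm_num) hl.le]
    exact Real.rpow_le_rpow (by positivity) h2.1 hq
  have hz2 : ‖riemannZeta (1 + 1 / Real.log T + (0 - 0) * Complex.I)‖ ^ (p ^ 2 / 4) ≤
      2 ^ (p ^ 2 / 4) * Real.log T ^ (p ^ 2 / 4) := by
    rw [← Real.mul_rpow (by norm_num) hl.le]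
    exact Real.rpow_le_rpow (norm_nonneg _) h2.2 hq
  set Zp := ‖riemannZeta (1 + 1 / Real.log T + (0 - 0) * Complex.I)‖ ^ (p ^ 2 / 4) with hZp
  set I := ∫ t in T..(2 * T), ‖dp M e t‖ ^ 2 with hI
  constructor
  · -- lower bound
    have h8 : ENNReal.ofReal (c * I) ≤ ENNReal.ofReal (∫ t in T..(2 * T), ‖z t‖ ^ p) := by
      refine h6.trans (le_of_eq ?_)
      rw [intervalIntegral.integral_of_le (by linarith), ← integral_Icc_eq_integral_Ioc]
      rw [ofReal_integral_eq_lintegral_ofReal]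
      · exact ((zp_cont hp).continuousOn).integrableOn_compact isCompact_Icc
      · exact Filter.Eventually.of_forall fun t => zp_nonneg p t
    have h9 : c * I ≤ ∫ t in T..(2 * T), ‖z t‖ ^ p := by
      rw [ENNReal.ofReal_le_ofReal_iff (int_nonneg p (by linarith))] at h8
      exact h8
    calc c * (c * (1 / 2) ^ (p ^ 2 / 4)) * (T * Real.log T ^ (p ^ 2 / 4)) =
          c * (c * (T * ((1 / 2) ^ (p ^ 2 / 4) * Real.log T ^ (p ^ 2 / 4)))) := by ring
      _ ≤ c * (c * (T * Zp)) := by gcongr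
      _ ≤ c * I := mul_le_mul_of_nonneg_left h3 hc.le
      _ ≤ _ := h9
  · calc ∫ t in T..(2 * T), ‖z t‖ ^ p ≤ C * I := h7
      _ ≤ C * (C * (T * Zp)) := mul_le_mul_of_nonneg_left h4 hC.le
      _ ≤ C * (C * (T * (2 ^ (p ^ 2 / 4) * Real.log T ^ (p ^ 2 / 4)))) := by gcongr
      _ = _ := by ring

/-- lower bounds of the expected order, all real orders `p > 0` -/
theorem all_lower {p : ℝ} (hp : 0 < p) : ∃ c : ℝ, 0 < c ∧ ∀ᶠ T : ℝ in atTop,
    c * (T * Real.log T ^ (p ^ 2 / 4)) ≤ ∫ t in T..(2 * T), ‖z t‖ ^ p := by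
  rcases le_total p 2 with h | h
  · obtain ⟨c, K, hc, -, hev⟩ := small_exact hp h
    exact ⟨c, hc, hev.mono fun T hT => hT.1⟩
  · obtain ⟨c, hc, hev⟩ := Pool.Agent.W188.Mom.lower h
    refine ⟨c, hc, ?_⟩
    filter_upwards [hev] with T hT
    rw [two_mul]
    exact hT

end Pool.Agent.U922.OL
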