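import Mathlib

/-!
# Values of zeta on lines through the origin: definitions (helper922)
-/

set_option autoImplicit false

open Set

namespace Pool.Agent.U922.OL

/-- The value `ζ(1/2 + it)`. -/
noncomputable def z (t : ℝ) : ℂ := riemannZeta (1 / 2 + t * Complex.I)

/-- The heights `t > 100` at which `ζ(1/2 + it)` is a nonzero point of one of the `N` lines `u e^{πij/N} ℝ`. -/
def Pts (u : ℂ) (N : ℕ) : Set ℝ :=
  {t | 100 < t ∧ ∃ (j : ℕ) (r : ℝ), r ≠ 0 ∧ z t = r * (u * Complex.exp (Real.pi * Complex.I * j / N))}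


/-- The sum of `|ζ(1/2 + it)|^p` over the heights `S < t ≤ T` in `Pts u N`. -/
noncomputable def D (p : ℝ) (u : ℂ) (N : ℕ) (S T : ℝ) : ℝ := ∑ᶠ t ∈ Pts u N ∩ Ioc S T, ‖z t‖ ^ p

/-- The heights `t > 100` at which `ζ(1/2 + it)` is a nonzero point of the line `u ℝ`. -/
def Line (u : ℂ) : Set ℝ := {t | 100 < t ∧ ∃ r : ℝ, r ≠ 0 ∧ z t = r * u}

/-- The sum of `|ζ(1/2 + it)|^p` over the heights `S < t ≤ T` in `Line u`. -/
noncomputable def L (p : ℝ) (u : ℂ) (S T : ℝ) : ℝ := ∑ᶠ t ∈ Line u ∩ Ioc S T, ‖z t‖ ^ p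

/-- The sum of `|ζ(1/2 + it)|^(2k)` over the heights `S < t ≤ T` in `Pts u N`. -/
noncomputable def E (k N : ℕ) (u : ℂ) (S T : ℝ) : ℝ := ∑ᶠ t ∈ Pts u N ∩ Ioc S T, ‖z t‖ ^ (2 * k)

/-- The mean value `(1/T) ∫_0^T |ζ(1/2 + it)|^(2k) dt`. -/
noncomputable def M (k : ℕ) (T : ℝ) : ℝ := T⁻¹ * ∫ t in (0 : ℝ)..T, ‖z t‖ ^ (2 * k)

/-- The mean value `∫_0^1 |ζ(1/2 + ix + ivT)|^β dv`. -/
noncomputable def av (β x T : ℝ) : ℝ :=
  ∫ v in (0 : ℝ)..1, ‖riemannZeta (1 / 2 + Complex.I * x + Complex.I * (v * T))‖ ^ β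

end Pool.Agent.U922.OL
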