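import Mathlib
import Pool.Agent.W188.MZ.All
import Pool.Agent.W188.QS.Asm3
import Pool.Agent.U922.OL.Defs

/-!
# The heights at which `ζ(1/2 + it)` lies on finitely many lines (helper922)

The lemmas are those of the starting hand-in `MP_973905_nt.AllRealOrders` (helper188), repeated for general use.
-/

set_option autoImplicit false

open Filter Topology Set MeasureTheory

namespace Pool.Agent.U922.OL

open Pool.Agent.W188.QS Pool.Agent.W188.GP Pool.Agent.W188.MZ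

lemma z_eq (t : ℝ) : z t = riemannZeta (cp t) := rfl

/-- the number `c` that belongs to the direction `u` -/
noncomputable def cc (u : ℂ) (N : ℕ) : ℂ := ((u / (‖u‖ : ℂ))⁻¹) ^ (2 * N)

lemma cc_norm {u : ℂ} (hu : u ≠ 0) (N : ℕ) : ‖cc u N‖ = 1 := by
  have h : ‖u‖ ≠ 0 := norm_ne_zero_iff.2 hu
  unfold cc
  rw [norm_pow, norm_inv, norm_div, Complex.norm_real, norm_norm, div_self h]
  simp

/-- points on the critical line with `w = 1`, in terms of `ζ` -/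
lemma ww_iff {c : ℂ} {N : ℕ} {t : ℝ} (ht : 1 ≤ t) (hz : z t ≠ 0) :
    ww c N (cp t) = 1 ↔ c * z t ^ (2 * N) = ((‖z t‖ ^ (2 * N) : ℝ) : ℂ) := by
  have hX : ‖XX (cp t)‖ = 1 := a_line.2.1 t
  have hX0 : XX (cp t) ≠ 0 := by
    intro h
    rw [h] at hX
    simp at hX
  have hfe : (starRingEnd ℂ) (z t) = XX (cp t) * z t := a_line.2.2.1 t ht
  have h1 : ((‖z t‖ ^ (2 * N) : ℝ) : ℂ) = XX (cp t) ^ N * z t ^ (2 * N) := by
    have h2 : ((‖z t‖ ^ 2 : ℝ) : ℂ) = XX (cp t) * z t ^ 2 := by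
      have h3 := Complex.mul_conj (z t)
      rw [hfe, Complex.normSq_eq_norm_sq] at h3
      rw [← h3]; ring
    rw [pow_mul, Complex.ofReal_pow, h2, mul_pow, pow_mul]
  rw [h1]
  have hz2 : z t ^ (2 * N) ≠ 0 := pow_ne_zero _ hz
  unfold ww
  rw [inv_pow]
  constructor
  · intro h
    have h2 : c = XX (cp t) ^ N := by
      have := congrArg (fun x => x * XX (cp t) ^ N) h
      simp only [one_mul] at this
      rw [mul_assoc, inv_mul_cancel₀ (pow_ne_zero _ hX0), mul_one] at this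
      exact this
    rw [h2]
  · intro h
    have h2 : c = XX (cp t) ^ N := mul_right_cancel₀ hz2 h
    rw [h2]
    exact mul_inv_cancel₀ (pow_ne_zero _ hX0)

/-- the algebraic description of the `N` lines -/
lemma line_iff {u x : ℂ} {N : ℕ} (hu : u ≠ 0) (hN : 1 ≤ N) (hx : x ≠ 0) :
    cc u N * x ^ (2 * N) = ((‖x‖ ^ (2 * N) : ℝ) : ℂ) ↔
      ∃ (j : ℕ) (r : ℝ), r ≠ 0 ∧ x = r * (u * Complex.exp (Real.pi * Complex.I * j / N)) := by
  have hu0 : ‖u‖ ≠ 0 := norm_ne_zero_iff.2 hu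
  have hx0 : ‖x‖ ≠ 0 := norm_ne_zero_iff.2 hx
  have hu1 : (‖u‖ : ℂ) ≠ 0 := by exact_mod_cast hu0
  have hx1 : (‖x‖ : ℂ) ≠ 0 := by exact_mod_cast hx0
  have hN0 : (N : ℂ) ≠ 0 := by
    have : N ≠ 0 := by omega
    exact_mod_cast this
  set v : ℂ := (u / (‖u‖ : ℂ))⁻¹ * (x / (‖x‖ : ℂ)) with hv
  have hv1 : cc u N * x ^ (2 * N) = v ^ (2 * N) * ((‖x‖ ^ (2 * N) : ℝ) : ℂ) := by
    rw [hv, cc, mul_pow, div_pow]
    push_cast
    field_simp
  have hX0 : ((‖x‖ ^ (2 * N) : ℝ) : ℂ) ≠ 0 := by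
    push_cast
    exact pow_ne_zero _ hx1
  have hxv : x = ((‖x‖ / ‖u‖ : ℝ) : ℂ) * (u * v) := by
    rw [hv]
    push_cast
    field_simp
  constructor
  · intro h
    rw [hv1] at h
    have h1 : v ^ (2 * N) = 1 := by
      have h2 : v ^ (2 * N) * ((‖x‖ ^ (2 * N) : ℝ) : ℂ) = 1 * ((‖x‖ ^ (2 * N) : ℝ) : ℂ) := by
        rw [h, one_mul]
      exact mul_right_cancel₀ hX0 h2
    have h2N : 2 * N ≠ 0 := by omega
    have : NeZero (2 * N) := ⟨h2N⟩
    obtain ⟨j, hj, hj2⟩ := (Complex.isPrimitiveRoot_exp (2 * N) h2N).eq_pow_of_pow_eq_one h1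
    refine ⟨j, ‖x‖ / ‖u‖, div_ne_zero hx0 hu0, ?_⟩
    have e1 : Complex.exp (Real.pi * Complex.I * j / N) = v := by
      rw [← hj2, ← Complex.exp_nat_mul]
      congr 1
      push_cast
      field_simp
    rw [e1]
    exact hxv
  · rintro ⟨j, r, hr, hxr⟩
    have hE : Complex.exp (Real.pi * Complex.I * j / N) ^ (2 * N) = 1 := by
      rw [← Complex.exp_nat_mul]
      have : ((2 * N : ℕ) : ℂ) * (Real.pi * Complex.I * j / N) = (j : ℤ) * (2 * Real.pi * Complex.I) := by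
        push_cast
        field_simp
      rw [this, Complex.exp_int_mul_two_pi_mul_I]
    have hEn : ‖Complex.exp (Real.pi * Complex.I * j / N)‖ = 1 := by
      have e : (Real.pi * Complex.I * j / N : ℂ) = ((Real.pi * j / N : ℝ) : ℂ) * Complex.I := by
        push_cast; ring
      rw [e, Complex.norm_exp_ofReal_mul_I]
    have hxn : ‖x‖ = |r| * ‖u‖ := by
      rw [hxr, norm_mul, norm_mul, hEn, Complex.norm_real, Real.norm_eq_abs, mul_one]
    have h4 : ((‖x‖ ^ (2 * N) : ℝ) : ℂ) = (r : ℂ) ^ (2 * N) * (‖u‖ : ℂ) ^ (2 * N) := by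
      rw [hxn, mul_pow, pow_mul |r|, sq_abs, ← pow_mul]
      push_cast
      ring
    rw [h4, cc, hxr]
    set E := Complex.exp (Real.pi * Complex.I * j / N)
    have : ((u / (‖u‖ : ℂ))⁻¹) ^ (2 * N) * ((r : ℂ) * (u * E)) ^ (2 * N) =
        (r : ℂ) ^ (2 * N) * (‖u‖ : ℂ) ^ (2 * N) * E ^ (2 * N) := by
      rw [inv_div, ← mul_pow, ← mul_pow, ← mul_pow]
      congr 1
      field_simp
    rw [this, hE, mul_one]

lemma Pts_iff {u : ℂ} {N : ℕ} (hu : u ≠ 0) (hN : 1 ≤ N) {t : ℝ} (hz : z t ≠ 0) :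
    t ∈ Pts u N ↔ t ∈ PP (cc u N) N := by
  constructor
  · rintro ⟨h1, h2⟩
    exact ⟨h1, (ww_iff (by linarith) hz).2 ((line_iff hu hN hz).2 h2)⟩
  · rintro ⟨h1, h2⟩
    exact ⟨h1, (line_iff hu hN hz).1 ((ww_iff (by linarith) hz).1 h2)⟩

lemma Pts_ne {u : ℂ} {N : ℕ} (hu : u ≠ 0) {t : ℝ} (h : t ∈ Pts u N) : z t ≠ 0 := by
  obtain ⟨-, j, r, hr, h2⟩ := h
  rw [h2]
  refine mul_ne_zero (by exact_mod_cast hr) (mul_ne_zero hu (Complex.exp_ne_zero _))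

/-- sums over `Pts` and over `PP` -/
lemma sum_eq {u : ℂ} {N : ℕ} (hu : u ≠ 0) (hN : 1 ≤ N) (U : Set ℝ) (f : ℝ → ℝ)
    (hf : ∀ t, z t = 0 → f t = 0) :
    ∑ᶠ t ∈ Pts u N ∩ U, f t = ∑ᶠ t ∈ PP (cc u N) N ∩ U, f t := by
  apply finsum_mem_inter_support_eq
  ext t
  simp only [mem_inter_iff, Function.mem_support]
  constructor
  · rintro ⟨⟨h1, h2⟩, h3⟩
    have hz : z t ≠ 0 := fun h => h3 (hf t h)
    exact ⟨⟨(Pts_iff hu hN hz).1 h1, h2⟩, h3⟩
  · rintro ⟨⟨h1, h2⟩, h3⟩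
    have hz : z t ≠ 0 := fun h => h3 (hf t h)
    exact ⟨⟨(Pts_iff hu hN hz).2 h1, h2⟩, h3⟩

lemma ZZ_z (t : ℝ) : ‖z t‖ = ZZ t := rfl

lemma cc_pow (u : ℂ) (N : ℕ) : cc u N = (cc u 1) ^ N := by
  unfold cc
  rw [mul_one, ← pow_mul]

/-- the discrete moments in terms of the nodes -/
lemma D_eq {u : ℂ} (hu : u ≠ 0) : ∃ γ : ℝ, ∀ (p : ℝ) (N : ℕ) (a b : ℝ), 0 < p → 1 ≤ N → 100 ≤ a → a ≤ b →
    D p u N a b = ∑ j ∈ Finset.range N, DD p (γ + j / N) a b ∧ (Pts u N ∩ Ioc a b).Finite := by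
  obtain ⟨γ, hγ⟩ := pts_uniform a_tau a_line (cc_norm hu 1)
  refine ⟨γ, fun p N a b hp hN ha hab => ?_⟩
  obtain ⟨h1, h2⟩ := hγ N hN (fun t => ZZ t ^ p) a b ha hab
  rw [← cc_pow] at h1 h2
  constructor
  · unfold D
    rw [sum_eq hu hN (Ioc a b) (fun t => ‖z t‖ ^ p) (fun t ht => by
      rw [ht, norm_zero, Real.zero_rpow hp.ne'])]
    exact h2
  · refine h1.subset ?_
    rintro t ⟨h3, h4⟩
    exact ⟨(Pts_iff hu hN (Pts_ne hu h3)).1 h3, h4⟩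

lemma D_two {u : ℂ} {p γ a b : ℝ} (h : D p u 2 a b = ∑ j ∈ Finset.range 2, DD p (γ + j / (2 : ℕ)) a b) :
    D p u 2 a b = DD2 p γ a b := by
  rw [h, Finset.sum_range_succ, Finset.sum_range_one]
  unfold DD2
  simp

lemma log_small : ∀ᶠ T : ℝ in atTop, 8 * Real.log T + 200 ≤ T / 2 := by
  have h1 := (isLittleO_log_rpow_rpow_atTop 1 (by norm_num : (0 : ℝ) < 1)).bound
    (by norm_num : (0 : ℝ) < 1 / 32)
  filter_upwards [h1, eventually_ge_atTop 800] with T h2 h3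
  rw [Real.rpow_one, Real.rpow_one, Real.norm_of_nonneg (Real.log_nonneg (by linarith)),
    Real.norm_of_nonneg (by linarith)] at h2
  linarith

lemma ZZp_cont {p : ℝ} (hp : 0 < p) : Continuous fun t : ℝ => ZZ t ^ p := by
  have h1 : Continuous ZZ := by
    have := Zk_cont 1
    have h2 : ZZ = fun t => √(Zk 1 t) := by
      funext t
      unfold Zk ZZ
      rw [mul_one, Real.sqrt_sq (norm_nonneg _)]
    rw [h2]
    exact this.sqrt
  exact h1.rpow_const (fun _ => Or.inr hp.le)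

lemma ZZp_nonneg (p t : ℝ) : 0 ≤ ZZ t ^ p := Real.rpow_nonneg (norm_nonneg _) _

lemma DD_nonneg (p γ a b : ℝ) : 0 ≤ DD p γ a b := Finset.sum_nonneg fun _ _ => ZZp_nonneg _ _

end Pool.Agent.U922.OL
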