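import Pool.Agent.U922.OL.One

/-!
# One line: orders of magnitude (helper922)
-/

set_option autoImplicit false

open Filter Topology Set MeasureTheory

namespace Pool.Agent.U922.OL

/-- the integral of `|ζ|^p` from `0` to `T` -/
noncomputable def P (p T : ℝ) : ℝ := ∫ t in (0 : ℝ)..T, ‖z t‖ ^ p

lemma P_add {p : ℝ} (hp : 0 < p) (a b : ℝ) : P p b = P p a + ∫ t in a..b, ‖z t‖ ^ p :=
  (intervalIntegral.integral_add_adjacent_intervals ((zp_cont hp).intervalIntegrable _ _)
    ((zp_cont hp).intervalIntegrable _ _)).symm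

lemma int_nonneg (p : ℝ) {a b : ℝ} (hab : a ≤ b) : 0 ≤ ∫ t in a..b, ‖z t‖ ^ p :=
  intervalIntegral.integral_nonneg hab fun t _ => zp_nonneg p t

lemma P_mono {p : ℝ} (hp : 0 < p) {a b : ℝ} (hab : a ≤ b) : P p a ≤ P p b := by
  rw [P_add hp a b]
  linarith [int_nonneg p hab]

lemma int_mono {p : ℝ} (hp : 0 < p) {a b c d : ℝ} (h1 : c ≤ a) (h2 : a ≤ b) (h3 : b ≤ d) :
    ∫ t in a..b, ‖z t‖ ^ p ≤ ∫ t in c..d, ‖z t‖ ^ p := by
  apply intervalIntegral.integral_mono_interval h1 h2 h3
  · exact Filter.Eventually.of_forall fun t => zp_nonneg p t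
  · exact (zp_cont hp).intervalIntegrable _ _

lemma P_nonneg {p : ℝ} {a : ℝ} (ha : 0 ≤ a) : 0 ≤ P p a := int_nonneg p ha

lemma log_two_mul {T : ℝ} (hT : 2 ≤ T) : Real.log (2 * T) ≤ 2 * Real.log T := by
  rw [Real.log_mul (by norm_num) (by linarith)]
  have := Real.log_le_log (by norm_num) hT
  linarith

lemma log_div_eight {T : ℝ} (hT : 64 ≤ T) : Real.log T / 2 ≤ Real.log (T / 8) := by
  rw [Real.log_div (by linarith) (by norm_num)]
  have h1 := Real.log_le_log (by norm_num) hT
  have h2 : Real.log 64 = 2 * Real.log 8 := by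
    rw [show (64 : ℝ) = 8 ^ 2 by norm_num, Real.log_pow]; norm_num
  linarith

lemma log_div_sixteen {T : ℝ} (hT : 256 ≤ T) : Real.log T / 2 ≤ Real.log (T / 16) := by
  rw [Real.log_div (by linarith) (by norm_num)]
  have h1 := Real.log_le_log (by norm_num) hT
  have h2 : Real.log 256 = 2 * Real.log 16 := by
    rw [show (256 : ℝ) = 16 ^ 2 by norm_num, Real.log_pow]; norm_num
  linarith

/-- from large `T` to `T ≥ 2` -/
lemma finish {F : ℝ → ℝ} {T1 K0 K a : ℝ} (hT1 : 2 ≤ T1) (hK0 : 0 ≤ K0) (hK : 0 ≤ K) (ha : 0 ≤ a)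
    (hmono : ∀ x y, 2 ≤ x → x ≤ y → F x ≤ F y)
    (h : ∀ T, T1 ≤ T → F T ≤ K0 + K * (T * Real.log T ^ a)) :
    ∃ B : ℝ, ∀ T : ℝ, 2 ≤ T → F T ≤ B * (T * Real.log T ^ a) := by
  have hl2 : 0 < Real.log 2 := Real.log_pos (by norm_num)
  set m : ℝ := 2 * Real.log 2 ^ a with hm
  have hm0 : 0 < m := by positivity
  have hlow : ∀ T : ℝ, 2 ≤ T → m ≤ T * Real.log T ^ a := by
    intro T hT
    apply mul_le_mul hT _ (by positivity) (by linarith)
    exact Real.rpow_le_rpow hl2.le (Real.log_le_log (by norm_num) hT) ha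
  have hlT1 : 0 ≤ Real.log T1 := Real.log_nonneg (by linarith)
  set K1 : ℝ := K0 + K * (T1 * Real.log T1 ^ a) with hK1
  have hK10 : 0 ≤ K1 := by
    have : 0 ≤ T1 := by linarith
    positivity
  refine ⟨K1 / m + (K0 / m + K), fun T hT => ?_⟩
  have h0 := hlow T hT
  have hX : 0 < T * Real.log T ^ a := lt_of_lt_of_le hm0 h0
  have e1 : K0 ≤ K0 / m * (T * Real.log T ^ a) := by
    calc K0 = K0 / m * m := by field_simp
      _ ≤ _ := mul_le_mul_of_nonneg_left h0 (by positivity)
  have e2 : K1 ≤ K1 / m * (T * Real.log T ^ a) := by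
    calc K1 = K1 / m * m := by field_simp
      _ ≤ _ := mul_le_mul_of_nonneg_left h0 (by positivity)
  have e3 : 0 ≤ K * (T * Real.log T ^ a) := mul_nonneg hK hX.le
  have e4 : (K1 / m + (K0 / m + K)) * (T * Real.log T ^ a) =
      K1 / m * (T * Real.log T ^ a) + K0 / m * (T * Real.log T ^ a) + K * (T * Real.log T ^ a) := by ring
  rw [e4]
  rcases le_or_gt T1 T with h1 | h1
  · have := h T h1
    linarith
  · have h2 := hmono T T1 hT h1.le
    have h3 := h T1 le_rfl
    linarith

lemma rpow_two_mul {x E : ℝ} (hx : 0 ≤ x) : (2 * x) ^ E = 2 ^ E * x ^ E :=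
  Real.mul_rpow (by norm_num) hx

/-- upper bounds for the integral and for the sum over one line are equivalent -/
theorem upper_iff {p E : ℝ} (hp : 1 < p) (hE : 0 ≤ E) {u : ℂ} (hu : u ≠ 0) :
    (∃ B : ℝ, ∀ T : ℝ, 2 ≤ T → P p T ≤ B * (T * Real.log T ^ E)) ↔
    (∃ B : ℝ, ∀ T : ℝ, 2 ≤ T → L p u 100 T ≤ B * (T * Real.log T ^ (E + 1))) := by
  obtain ⟨C, T₀, hC, hT₀, h⟩ := one_cmp hp
  have hp0 : 0 < p := by linarith
  constructor
  · rintro ⟨B, hB⟩
    have hd := dyad (F := fun x => L p u 100 x) (T1 := T₀) (K := C * |B| * 2 * 2 ^ E) (a := E + 1)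
      (by linarith) (by positivity) (by linarith) (fun x y _ hxy => L_mono hu p le_rfl hxy) (by
        intro T hT
        have hT2 : 1600 ≤ T := by linarith
        obtain ⟨-, h2⟩ := h u (T / 8) hu (by linarith)
        have e1 : 8 * (T / 8) = T := by ring
        have e2 : 16 * (T / 8) = 2 * T := by ring
        rw [e1, e2] at h2
        rw [L_add hu p (show (100 : ℝ) ≤ T / 8 by linarith) (show T / 8 ≤ T by linarith)]
        have h3 : ∫ t in (T / 8 / 2)..(2 * T), ‖z t‖ ^ p ≤ P p (2 * T) :=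
          int_mono hp0 (by linarith) (by linarith) le_rfl
        have h4 : P p (2 * T) ≤ |B| * (2 * T * (2 ^ E * Real.log T ^ E)) := by
          refine (hB (2 * T) (by linarith)).trans ?_
          have hlT : 0 ≤ Real.log T := Real.log_nonneg (by linarith)
          have hl2T : 0 ≤ Real.log (2 * T) := Real.log_nonneg (by linarith)
          have h5 : Real.log (2 * T) ^ E ≤ 2 ^ E * Real.log T ^ E := by
            rw [← rpow_two_mul hlT]
            exact Real.rpow_le_rpow hl2T (log_two_mul (by linarith)) hE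
          calc B * (2 * T * Real.log (2 * T) ^ E) ≤ |B| * (2 * T * Real.log (2 * T) ^ E) := by
                apply mul_le_mul_of_nonneg_right (le_abs_self B); positivity
            _ ≤ _ := by
                apply mul_le_mul_of_nonneg_left _ (abs_nonneg B)
                exact mul_le_mul_of_nonneg_left h5 (by linarith)
        have hlT : 0 < Real.log T := Real.log_pos (by linarith)
        have hl8 : Real.log (T / 8) ≤ Real.log T := Real.log_le_log (by linarith) (by linarith)
        have h6 : Real.log (T / 8) * (∫ t in (T / 8 / 2)..(2 * T), ‖z t‖ ^ p) ≤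
            Real.log T * (|B| * (2 * T * (2 ^ E * Real.log T ^ E))) :=
          mul_le_mul hl8 (h3.trans h4) (int_nonneg p (by linarith)) hlT.le
        have h7 := mul_le_mul_of_nonneg_left h6 hC.le
        have e3 : C * (Real.log T * (|B| * (2 * T * (2 ^ E * Real.log T ^ E)))) =
            C * |B| * 2 * 2 ^ E * (T * Real.log T ^ (E + 1)) := by
          rw [Real.rpow_add_one hlT.ne']; ring
        rw [e3] at h7
        linarith)
    exact finish (T1 := T₀) (by linarith) (L_nonneg p u 100 (8 * T₀)) (K := 8 / 7 * (C * |B| * 2 * 2 ^ E))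
      (by positivity) (by linarith) (fun x y _ hxy => L_mono hu p le_rfl hxy)
      (fun T hT => (hd T hT).trans (le_of_eq (by ring)))
  · rintro ⟨B, hB⟩
    have hd := dyad (F := fun x => P p x) (T1 := T₀) (K := 2 * (C * |B| * 2 * 2 ^ (E + 1))) (a := E)
      (by linarith) (by positivity) hE (fun x y _ hxy => P_mono hp0 hxy) (by
        intro T hT
        have hT2 : 1600 ≤ T := by linarith
        obtain ⟨h2, -⟩ := h u (T / 8) hu (by linarith)
        have e1 : 8 * (T / 8) = T := by ring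
        have e2 : 16 * (T / 8) = 2 * T := by ring
        rw [e1, e2] at h2
        rw [P_add hp0 (T / 8) T]
        have hlT : 0 < Real.log T := Real.log_pos (by linarith)
        have h3 : L p u (T / 8 / 2) (2 * T) ≤ |B| * (2 * T * (2 ^ (E + 1) * Real.log T ^ (E + 1))) := by
          refine (L_mono hu p (show (100 : ℝ) ≤ T / 8 / 2 by linarith) le_rfl).trans ?_
          refine (hB (2 * T) (by linarith)).trans ?_
          have hl2T : 0 ≤ Real.log (2 * T) := Real.log_nonneg (by linarith)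
          have h5 : Real.log (2 * T) ^ (E + 1) ≤ 2 ^ (E + 1) * Real.log T ^ (E + 1) := by
            rw [← rpow_two_mul hlT.le]
            exact Real.rpow_le_rpow hl2T (log_two_mul (by linarith)) (by linarith)
          calc B * (2 * T * Real.log (2 * T) ^ (E + 1)) ≤ |B| * (2 * T * Real.log (2 * T) ^ (E + 1)) := by
                apply mul_le_mul_of_nonneg_right (le_abs_self B); positivity
            _ ≤ _ := by
                apply mul_le_mul_of_nonneg_left _ (abs_nonneg B)
                exact mul_le_mul_of_nonneg_left h5 (by linarith)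
        have h4 := mul_le_mul_of_nonneg_left h3 hC.le
        have hl8 : Real.log T / 2 ≤ Real.log (T / 8) := log_div_eight (by linarith)
        set J := ∫ t in (T / 8)..T, ‖z t‖ ^ p with hJ
        have hJ0 : 0 ≤ J := int_nonneg p (by linarith)
        have h6 : Real.log T / 2 * J ≤ Real.log (T / 8) * J := mul_le_mul_of_nonneg_right hl8 hJ0
        have e3 : C * (|B| * (2 * T * (2 ^ (E + 1) * Real.log T ^ (E + 1)))) =
            Real.log T / 2 * (2 * (C * |B| * 2 * 2 ^ (E + 1)) * (T * Real.log T ^ E)) := by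
          rw [Real.rpow_add_one hlT.ne']; ring
        rw [e3] at h4
        have h7 : Real.log T / 2 * J ≤
            Real.log T / 2 * (2 * (C * |B| * 2 * 2 ^ (E + 1)) * (T * Real.log T ^ E)) := by linarith
        have h8 := le_of_mul_le_mul_left h7 (by linarith)
        linarith)
    exact finish (T1 := T₀) (by linarith) (P_nonneg (by linarith : (0 : ℝ) ≤ 8 * T₀))
      (K := 8 / 7 * (2 * (C * |B| * 2 * 2 ^ (E + 1))))
      (by positivity) hE (fun x y _ hxy => P_mono hp0 hxy)
      (fun T hT => (hd T hT).trans (le_of_eq (by ring)))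

/-- lower bounds for the sum over one line, uniformly in the direction -/
theorem line_lower {p q : ℝ} (hp : 1 < p) (hq : 0 ≤ q)
    (hlow : ∃ c : ℝ, 0 < c ∧ ∀ᶠ T : ℝ in atTop, c * (T * Real.log T ^ q) ≤ ∫ t in T..(2 * T), ‖z t‖ ^ p) :
    ∃ c T₁ : ℝ, 0 < c ∧ ∀ (u : ℂ) (T : ℝ), u ≠ 0 → T₁ ≤ T →
      c * (T * Real.log T ^ (q + 1)) ≤ L p u 100 T := by
  obtain ⟨C, T₀, hC, hT₀, h⟩ := one_cmp hp
  have hp0 : 0 < p := by linarith
  obtain ⟨c, hc, hev⟩ := hlow
  obtain ⟨T₂, hT₂⟩ := eventually_atTop.1 hev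
  refine ⟨c / (16 * 2 ^ (q + 1) * C), 16 * (max T₀ T₂), by positivity, fun u T hu hT => ?_⟩
  have h1 : T₀ ≤ T / 16 := by linarith [le_max_left T₀ T₂]
  have h2 : T₂ ≤ T / 16 := by linarith [le_max_right T₀ T₂]
  have hT3 : 3200 ≤ T := by linarith
  obtain ⟨h3, -⟩ := h u (T / 16) hu h1
  have h4 := hT₂ (T / 16) h2
  have e1 : 16 * (T / 16) = T := by ring
  rw [e1] at h3
  have h5 : ∫ t in (T / 16)..(2 * (T / 16)), ‖z t‖ ^ p ≤ ∫ t in (T / 16)..(8 * (T / 16)), ‖z t‖ ^ p :=
    int_mono hp0 le_rfl (by linarith) (by linarith)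
  have h6 : L p u (T / 16 / 2) T ≤ L p u 100 T := L_mono hu p (by linarith) le_rfl
  have hlT : 0 < Real.log T := Real.log_pos (by linarith)
  have hl16 : Real.log T / 2 ≤ Real.log (T / 16) := log_div_sixteen (by linarith)
  have hl0 : 0 < Real.log (T / 16) := by linarith
  have h7 : Real.log (T / 16) * (c * (T / 16 * Real.log (T / 16) ^ q)) ≤ C * L p u 100 T := by
    calc _ ≤ Real.log (T / 16) * ∫ t in (T / 16)..(8 * (T / 16)), ‖z t‖ ^ p :=
          mul_le_mul_of_nonneg_left (h4.trans h5) hl0.le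
      _ ≤ C * L p u (T / 16 / 2) T := h3
      _ ≤ _ := mul_le_mul_of_nonneg_left h6 hC.le
  have e2 : Real.log (T / 16) * (c * (T / 16 * Real.log (T / 16) ^ q)) =
      c / 16 * (T * Real.log (T / 16) ^ (q + 1)) := by
    rw [Real.rpow_add_one hl0.ne']; ring
  rw [e2] at h7
  have h8 : (Real.log T / 2) ^ (q + 1) ≤ Real.log (T / 16) ^ (q + 1) :=
    Real.rpow_le_rpow (by positivity) hl16 (by linarith)
  have e3 : (Real.log T / 2) ^ (q + 1) = Real.log T ^ (q + 1) / 2 ^ (q + 1) :=
    Real.div_rpow hlT.le (by norm_num) _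
  rw [e3] at h8
  have hT0 : 0 < T := by linarith
  have h9 : c / 16 * (T * (Real.log T ^ (q + 1) / 2 ^ (q + 1))) ≤ C * L p u 100 T := by
    refine le_trans ?_ h7
    apply mul_le_mul_of_nonneg_left _ (by positivity)
    exact mul_le_mul_of_nonneg_left h8 hT0.le
  have e4 : c / (16 * 2 ^ (q + 1) * C) * (T * Real.log T ^ (q + 1)) =
      (c / 16 * (T * (Real.log T ^ (q + 1) / 2 ^ (q + 1)))) / C := by
    field_simp
  rw [e4, div_le_iff₀ hC]
  linarith

/-- upper bounds for the sum over one line, uniformly in the direction -/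
theorem line_upper {p q : ℝ} (hp : 1 < p) (hq : 0 ≤ q)
    (hup : ∃ K : ℝ, 0 < K ∧ ∀ᶠ T : ℝ in atTop, ∫ t in T..(2 * T), ‖z t‖ ^ p ≤ K * (T * Real.log T ^ q)) :
    ∃ K T₁ : ℝ, 0 < K ∧ ∀ (u : ℂ) (T : ℝ), u ≠ 0 → T₁ ≤ T →
      L p u 100 T ≤ K * (T * Real.log T ^ (q + 1)) := by
  obtain ⟨C, T₀, hC, hT₀, h⟩ := one_cmp hp
  have hp0 : 0 < p := by linarith
  obtain ⟨K, hK, hev⟩ := hup
  obtain ⟨T₂, hT₂⟩ := eventually_atTop.1 hev
  set T1 := 2 * max T₀ T₂ with hT1
  have hm1 := le_max_left T₀ T₂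
  have hm2 := le_max_right T₀ T₂
  obtain ⟨K0, hK0, hst⟩ := L_start hp0 (8 * T1)
  refine ⟨K0 + 8 / 7 * (C * (5 * K)), T1, by positivity, fun u T hu hT => ?_⟩
  have hd := dyad (F := fun x => L p u 100 x) (T1 := T1) (K := C * (5 * K)) (a := q + 1)
    (by linarith) (by positivity) (by linarith) (fun x y _ hxy => L_mono hu p le_rfl hxy) (by
      intro T hT
      have hT2 : 3200 ≤ T := by linarith
      obtain ⟨-, h2⟩ := h u (T / 8) hu (by linarith)
      have e1 : 8 * (T / 8) = T := by ring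
      have e2 : 16 * (T / 8) = 2 * T := by ring
      rw [e1, e2] at h2
      rw [L_add hu p (show (100 : ℝ) ≤ T / 8 by linarith) (show T / 8 ≤ T by linarith)]
      have hlT : 0 < Real.log T := Real.log_pos (by linarith)
      have hpc : ∀ S : ℝ, T / 16 ≤ S → S ≤ T → ∫ t in S..(2 * S), ‖z t‖ ^ p ≤ K * (T * Real.log T ^ q) := by
        intro S h3 h4
        refine (hT₂ S (by linarith)).trans ?_
        apply mul_le_mul_of_nonneg_left _ hK.le
        apply mul_le_mul h4 _ _ (by linarith)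
        · exact Real.rpow_le_rpow (Real.log_nonneg (by linarith)) (Real.log_le_log (by linarith) h4) hq
        · exact Real.rpow_nonneg (Real.log_nonneg (by linarith)) _
      have hsum : ∫ t in (T / 8 / 2)..(2 * T), ‖z t‖ ^ p ≤ 5 * (K * (T * Real.log T ^ q)) := by
        have a1 := hpc (T / 16) le_rfl (by linarith)
        have a2 := hpc (T / 8) (by linarith) (by linarith)
        have a3 := hpc (T / 4) (by linarith) (by linarith)
        have a4 := hpc (T / 2) (by linarith) (by linarith)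
        have a5 := hpc T (by linarith) le_rfl
        rw [show 2 * (T / 16) = T / 8 by ring] at a1
        rw [show 2 * (T / 8) = T / 4 by ring] at a2
        rw [show 2 * (T / 4) = T / 2 by ring] at a3
        rw [show 2 * (T / 2) = T by ring] at a4
        rw [show T / 8 / 2 = T / 16 by ring]
        have b1 := P_add hp0 (T / 16) (T / 8)
        have b2 := P_add hp0 (T / 8) (T / 4)
        have b3 := P_add hp0 (T / 4) (T / 2)
        have b4 := P_add hp0 (T / 2) T
        have b5 := P_add hp0 T (2 * T)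
        have b6 := P_add hp0 (T / 16) (2 * T)
        linarith
      have hl8 : Real.log (T / 8) ≤ Real.log T := Real.log_le_log (by linarith) (by linarith)
      have h6 : Real.log (T / 8) * (∫ t in (T / 8 / 2)..(2 * T), ‖z t‖ ^ p) ≤
          Real.log T * (5 * (K * (T * Real.log T ^ q))) :=
        mul_le_mul hl8 hsum (int_nonneg p (by linarith)) hlT.le
      have h7 := mul_le_mul_of_nonneg_left h6 hC.le
      have e3 : C * (Real.log T * (5 * (K * (T * Real.log T ^ q)))) =
          C * (5 * K) * (T * Real.log T ^ (q + 1)) := by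
        rw [Real.rpow_add_one hlT.ne']; ring
      rw [e3] at h7
      linarith)
  have h1 := hd T hT
  have h2 := hst u hu
  have hT400 : 400 ≤ T := by linarith
  have hlT : 1 ≤ Real.log T := by
    rw [Real.le_log_iff_exp_le (by linarith)]
    have := Real.exp_one_lt_d9
    linarith
  have h3 : 1 ≤ T * Real.log T ^ (q + 1) := by
    have : 1 ≤ Real.log T ^ (q + 1) := Real.one_le_rpow hlT (by linarith)
    nlinarith
  have h4 : K0 ≤ K0 * (T * Real.log T ^ (q + 1)) := le_mul_of_one_le_right hK0 h3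
  calc L p u 100 T ≤ L p u 100 (8 * T1) + 8 / 7 * (C * (5 * K) * (T * Real.log T ^ (q + 1))) := h1
    _ ≤ K0 * (T * Real.log T ^ (q + 1)) + 8 / 7 * (C * (5 * K) * (T * Real.log T ^ (q + 1))) := by linarith
    _ = _ := by ring

/-! ## the average of the problem -/

lemma av_eq {β : ℝ} (x : ℝ) {T : ℝ} (hT : T ≠ 0) : av β x T = T⁻¹ * ∫ t in x..(x + T), ‖z t‖ ^ β := by
  have h := intervalIntegral.integral_comp_add_mul (fun t : ℝ => ‖z t‖ ^ β) (a := 0) (b := 1) hT x
  rw [mul_zero, mul_one, add_zero, smul_eq_mul] at h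
  rw [← h]
  unfold av
  apply intervalIntegral.integral_congr
  intro v _
  simp only [z]
  congr 2
  congr 1
  push_cast
  ring

lemma scale {m E : ℝ} (hm : 0 ≤ m) (hE : 0 ≤ E) : ∃ K : ℝ, 0 ≤ K ∧ ∀ T : ℝ, 2 ≤ T →
    (T + m) * Real.log (T + m) ^ E ≤ K * (T * Real.log T ^ E) := by
  have hl2 : 0 < Real.log 2 := Real.log_pos (by norm_num)
  have hlm : 0 ≤ Real.log (1 + m) := Real.log_nonneg (by linarith)
  refine ⟨(1 + m) * (1 + Real.log (1 + m) / Real.log 2) ^ E, by positivity, fun T hT => ?_⟩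
  have hlT : Real.log 2 ≤ Real.log T := Real.log_le_log (by norm_num) hT
  have h1 : T + m ≤ (1 + m) * T := by nlinarith
  have h2 : Real.log (T + m) ≤ (1 + Real.log (1 + m) / Real.log 2) * Real.log T := by
    calc Real.log (T + m) ≤ Real.log ((1 + m) * T) := Real.log_le_log (by linarith) h1
      _ = Real.log (1 + m) + Real.log T := Real.log_mul (by linarith) (by linarith)
      _ = Real.log (1 + m) / Real.log 2 * Real.log 2 + Real.log T := by field_simp
      _ ≤ Real.log (1 + m) / Real.log 2 * Real.log T + Real.log T := by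
          have := mul_le_mul_of_nonneg_left hlT (by positivity : 0 ≤ Real.log (1 + m) / Real.log 2)
          linarith
      _ = _ := by ring
  have h3 : Real.log (T + m) ^ E ≤ (1 + Real.log (1 + m) / Real.log 2) ^ E * Real.log T ^ E := by
    rw [← Real.mul_rpow (by positivity) (by linarith)]
    exact Real.rpow_le_rpow (Real.log_nonneg (by linarith)) h2 hE
  calc (T + m) * Real.log (T + m) ^ E ≤
        (1 + m) * T * ((1 + Real.log (1 + m) / Real.log 2) ^ E * Real.log T ^ E) :=
        mul_le_mul h1 h3 (Real.rpow_nonneg (Real.log_nonneg (by linarith)) _) (by nlinarith)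
    _ = _ := by ring

lemma const_le {K0 E : ℝ} (hK0 : 0 ≤ K0) (hE : 0 ≤ E) : ∃ K : ℝ, 0 ≤ K ∧ ∀ T : ℝ, 2 ≤ T →
    K0 ≤ K * (T * Real.log T ^ E) := by
  have hl2 : 0 < Real.log 2 := Real.log_pos (by norm_num)
  set m : ℝ := 2 * Real.log 2 ^ E with hm
  have hm0 : 0 < m := by positivity
  refine ⟨K0 / m, by positivity, fun T hT => ?_⟩
  have h0 : m ≤ T * Real.log T ^ E := by
    apply mul_le_mul hT _ (by positivity) (by linarith)
    exact Real.rpow_le_rpow hl2.le (Real.log_le_log (by norm_num) hT) hE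
  calc K0 = K0 / m * m := by field_simp
    _ ≤ _ := mul_le_mul_of_nonneg_left h0 (by positivity)

theorem av_iff {β E : ℝ} (hβ : 0 < β) (hE : 0 ≤ E) (x : ℝ) :
    (∃ B : ℝ, ∀ T : ℝ, 2 ≤ T → av β x T ≤ B * Real.log T ^ E) ↔
    (∃ B : ℝ, ∀ T : ℝ, 2 ≤ T → P β T ≤ B * (T * Real.log T ^ E)) := by
  obtain ⟨K1, hK1, hs⟩ := scale (abs_nonneg x) hE
  obtain ⟨K2, hK2, hc⟩ := const_le (abs_nonneg (P β x)) hE
  constructor
  · rintro ⟨B, hB⟩
    refine ⟨|B| * K1 + K2, fun T hT => ?_⟩
    have hx := neg_abs_le x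
    have hx2 := abs_nonneg x
    have h1 := hB (T + |x|) (by linarith)
    have hT0 : 0 < T + |x| := by linarith
    rw [av_eq x hT0.ne', inv_mul_le_iff₀ hT0] at h1
    have h2 : P β T ≤ P β (x + (T + |x|)) := P_mono hβ (by linarith)
    rw [P_add hβ x (x + (T + |x|))] at h2
    have h3 := le_abs_self (P β x)
    have h4 : (T + |x|) * (B * Real.log (T + |x|) ^ E) ≤ |B| * (K1 * (T * Real.log T ^ E)) := by
      calc (T + |x|) * (B * Real.log (T + |x|) ^ E) = B * ((T + |x|) * Real.log (T + |x|) ^ E) := by ring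
        _ ≤ |B| * ((T + |x|) * Real.log (T + |x|) ^ E) := by
            apply mul_le_mul_of_nonneg_right (le_abs_self B)
            exact mul_nonneg hT0.le (Real.rpow_nonneg (Real.log_nonneg (by linarith)) _)
        _ ≤ _ := mul_le_mul_of_nonneg_left (hs T hT) (abs_nonneg B)
    have h5 := hc T hT
    calc P β T ≤ |B| * (K1 * (T * Real.log T ^ E)) + K2 * (T * Real.log T ^ E) := by linarith
      _ = _ := by ring
  · rintro ⟨B, hB⟩
    refine ⟨|B| * K1 + K2, fun T hT => ?_⟩
    have hT0 : 0 < T := by linarith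
    have hx := le_abs_self x
    have hx2 := abs_nonneg x
    rw [av_eq x hT0.ne', inv_mul_le_iff₀ hT0]
    have h1 := hB (T + |x|) (by linarith)
    have h2 : P β (x + T) ≤ P β (T + |x|) := P_mono hβ (by linarith)
    rw [P_add hβ x (x + T)] at h2
    have h3 := neg_abs_le (P β x)
    have h4 : B * ((T + |x|) * Real.log (T + |x|) ^ E) ≤ |B| * (K1 * (T * Real.log T ^ E)) := by
      calc B * ((T + |x|) * Real.log (T + |x|) ^ E) ≤ |B| * ((T + |x|) * Real.log (T + |x|) ^ E) := by
            apply mul_le_mul_of_nonneg_right (le_abs_self B)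
            exact mul_nonneg (by linarith) (Real.rpow_nonneg (Real.log_nonneg (by linarith)) _)
        _ ≤ _ := mul_le_mul_of_nonneg_left (hs T hT) (abs_nonneg B)
    have h5 := hc T hT
    calc ∫ t in x..(x + T), ‖z t‖ ^ β ≤ |B| * (K1 * (T * Real.log T ^ E)) + K2 * (T * Real.log T ^ E) := by
          linarith
      _ = _ := by ring

end Pool.Agent.U922.OL
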